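import Mathlib
import Pool.Agent.V11299.LI.Fin

/-!
# `L_∞(L_r) ≃ B_{r,∞}` for every `1 ≤ r < ∞`

The Bochner space `L_∞([0,1]; L_r[0,1])` is isomorphic, as a Banach space, to the `ℓ_∞`-sum
of the spaces `ℓ_r^n`, `n ≥ 1`, for every `r ∈ [1, ∞)`, over the real and over the complex scalars.
-/

open scoped ENNReal
open MeasureTheory

namespace Pool.Agent.Results.MP_cd69b0_an.LInfLrIsB

/-- Lebesgue measure on `[0,1]`. -/
noncomputable def leb : Measure ℝ := volume.restrict (Set.Icc (0 : ℝ) 1)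

section
variable (𝕜 : Type) [RCLike 𝕜] (r : ℝ≥0∞) [Fact (1 ≤ r)]

/-- `L_r = L_r[0,1]` -/
def Lr : Type := Lp 𝕜 r leb

noncomputable instance groupLr : NormedAddCommGroup (Lr 𝕜 r) :=
  Lp.instNormedAddCommGroup (E := 𝕜) (p := r) (μ := leb)

noncomputable instance spaceLr : NormedSpace 𝕜 (Lr 𝕜 r) :=
  Lp.instNormedSpace (𝕜 := 𝕜) (E := 𝕜) (p := r) (μ := leb)

/-- The Bochner space `L_∞(L_r)`: classes of strongly measurable, essentially bounded functions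
from `[0,1]` to `L_r`, with the essential supremum norm. -/
def LinfLr : Type := Lp (Lr 𝕜 r) ∞ leb

noncomputable instance groupLinfLr : NormedAddCommGroup (LinfLr 𝕜 r) :=
  Lp.instNormedAddCommGroup (E := Lr 𝕜 r) (p := ∞) (μ := leb)

noncomputable instance spaceLinfLr : NormedSpace 𝕜 (LinfLr 𝕜 r) :=
  Lp.instNormedSpace (𝕜 := 𝕜) (E := Lr 𝕜 r) (p := ∞) (μ := leb)

/-- `ℓ_r^n` -/
def lrn (n : ℕ) : Type := PiLp r (fun _ : Fin n => 𝕜)

noncomputable instance groupLrn (n : ℕ) : NormedAddCommGroup (lrn 𝕜 r n) :=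
  PiLp.normedAddCommGroup r (fun _ : Fin n => 𝕜)

noncomputable instance spaceLrn (n : ℕ) : NormedSpace 𝕜 (lrn 𝕜 r n) :=
  PiLp.normedSpace r 𝕜 (fun _ : Fin n => 𝕜)

/-- `B_{r,∞}`: the `ℓ_∞`-sum of `ℓ_r^n`, `n = 1, 2, 3, …`. -/
def B : Type := lp (fun n : ℕ => lrn 𝕜 r (n + 1)) ∞

noncomputable instance groupB : NormedAddCommGroup (B 𝕜 r) :=
  lp.normedAddCommGroup (E := fun n : ℕ => lrn 𝕜 r (n + 1)) (p := ∞)

noncomputable instance spaceB : NormedSpace 𝕜 (B 𝕜 r) :=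
  lp.instNormedSpace (𝕜 := 𝕜) (E := fun n : ℕ => lrn 𝕜 r (n + 1)) (p := ∞)

end

/-- For `𝕜 = ℝ` or `ℂ` and every `r ∈ [1, ∞)` there is a bounded linear bijection with bounded
inverse from `L_∞(L_r)` onto `B_{r,∞}`. -/
theorem result (𝕜 : Type) [RCLike 𝕜] (r : ℝ≥0∞) [Fact (1 ≤ r)] (hr : r ≠ ∞) :
    Nonempty (LinfLr 𝕜 r ≃L[𝕜] B 𝕜 r) :=
  V11299.LI.main (𝕜 := 𝕜) (p := r) hr

end Pool.Agent.Results.MP_cd69b0_an.LInfLrIsB
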